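import Mathlib

/-!
Homomorphisms from the additive group of the rational numbers into a group, given by compatible roots.
-/

set_option autoImplicit false

namespace Pool.Agent.Q252.DV

universe u

open Nat in
theorem root_pow {G : Type u} [Group G] {s : ℕ → G} (hs : ∀ n, s (n + 1) ^ (n + 1) = s n) (n k : ℕ) :
    s (n + k) ^ ((n + k)! / n !) = s n := by
  induction k with
  | zero => rw [Nat.add_zero, Nat.div_self (Nat.factorial_pos n), pow_one]
  | succ k ih =>
    have h1 : (n + (k + 1))! / n ! = (n + k + 1) * ((n + k)! / n !) := by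
      rw [show n + (k + 1) = (n + k) + 1 by ring, Nat.factorial_succ,
        Nat.mul_div_assoc _ (Nat.factorial_dvd_factorial (Nat.le_add_right n k))]
    rw [h1, pow_mul, show n + (k + 1) = n + k + 1 by ring, hs, ih]

open Nat in
/-- the exponents with the same value give the same element -/
theorem root_eq {G : Type u} [Group G] {s : ℕ → G} (hs : ∀ n, s (n + 1) ^ (n + 1) = s n) {n m : ℕ} {a b : ℤ}
    (h : (a : ℚ) / (n ! : ℚ) = b / (m ! : ℚ)) : s n ^ a = s m ^ b := by
  have main : ∀ {n m : ℕ} {a b : ℤ}, n ≤ m → (a : ℚ) / (n ! : ℚ) = b / (m ! : ℚ) → s n ^ a = s m ^ b := by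
    intro n m a b hnm h
    obtain ⟨k, rfl⟩ := Nat.exists_eq_add_of_le hnm
    have h1 := root_pow hs n k
    have hd : n ! ∣ (n + k)! := Nat.factorial_dvd_factorial (Nat.le_add_right n k)
    have hn : (n ! : ℚ) ≠ 0 := Nat.cast_ne_zero.2 (Nat.factorial_ne_zero n)
    have hm : ((n + k)! : ℚ) ≠ 0 := Nat.cast_ne_zero.2 (Nat.factorial_ne_zero _)
    obtain ⟨c, hc⟩ := hd
    have hdiv : (n + k)! / n ! = c := by
      rw [hc]
      exact Nat.mul_div_cancel_left c (Nat.factorial_pos n)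
    rw [hdiv] at h1
    have h2 : (c : ℤ) * a = b := by
      have h3 : (c : ℚ) * a = b := by
        rw [div_eq_div_iff hn hm, hc] at h
        push_cast at h
        exact mul_left_cancel₀ hn (by linear_combination h)
      exact_mod_cast h3
    conv_lhs => rw [← h1]
    rw [← zpow_natCast, ← zpow_mul, h2]
  rcases le_total n m with h1 | h1
  · exact main h1 h
  · exact (main h1 h.symm).symm

open Nat in
/-- the homomorphism of a sequence of roots -/
theorem exists_hom {G : Type u} [Group G] {s : ℕ → G} (hs : ∀ n, s (n + 1) ^ (n + 1) = s n) :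
    ∃ f : Multiplicative ℚ →* G, ∀ (n : ℕ) (a : ℤ), f (Multiplicative.ofAdd ((a : ℚ) / (n ! : ℚ))) = s n ^ a := by
  have hrep : ∀ (q : ℚ) (n : ℕ), q.den ≤ n → ∃ a : ℤ, q = (a : ℚ) / (n ! : ℚ) := by
    intro q n hn
    have hn0 : (n ! : ℚ) ≠ 0 := Nat.cast_ne_zero.2 (Nat.factorial_ne_zero n)
    obtain ⟨c, hc⟩ := Nat.dvd_factorial q.den_pos hn
    refine ⟨q.num * c, ?_⟩
    rw [eq_div_iff hn0, hc]
    push_cast
    rw [← mul_assoc, Rat.mul_den_eq_num]
  choose num hnum using fun q : ℚ => hrep q q.den le_rfl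
  let F : ℚ → G := fun q => s q.den ^ num q
  have hF : ∀ (n : ℕ) (a : ℤ), F ((a : ℚ) / (n ! : ℚ)) = s n ^ a := by
    intro n a
    exact root_eq hs (hnum _).symm
  have hadd : ∀ p q : ℚ, F (p + q) = F p * F q := by
    intro p q
    obtain ⟨a, ha⟩ := hrep p (max p.den q.den) (le_max_left _ _)
    obtain ⟨b, hb⟩ := hrep q (max p.den q.den) (le_max_right _ _)
    have h1 : p + q = ((a + b : ℤ) : ℚ) / ((max p.den q.den)! : ℚ) := by
      rw [Int.cast_add, add_div, ← ha, ← hb]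
    have e1 := hF (max p.den q.den) a
    have e2 := hF (max p.den q.den) b
    rw [← ha] at e1
    rw [← hb] at e2
    rw [h1, hF, zpow_add, e1, e2]
  refine ⟨AddMonoidHom.toMultiplicativeLeft
    { toFun := fun q => Additive.ofMul (F q)
      map_zero' := ?_
      map_add' := ?_ }, ?_⟩
  · have := hF 0 0
    rw [Int.cast_zero, zero_div, zpow_zero] at this
    rw [this]
    rfl
  · intro p q
    rw [hadd]
    rfl
  · intro n a
    exact hF n a

/-- roots in a set closed under roots -/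
theorem exists_seq {G : Type u} [Group G] {D : Set G} (hD : ∀ h ∈ D, ∀ m : ℕ, 1 ≤ m → ∃ h' ∈ D, h' ^ m = h)
    {g : G} (hg : g ∈ D) : ∃ s : ℕ → G, s 0 = g ∧ (∀ n, s n ∈ D) ∧ ∀ n, s (n + 1) ^ (n + 1) = s n := by
  choose r hr1 hr2 using hD
  let t : ℕ → D := fun n => Nat.rec ⟨g, hg⟩ (fun n x => ⟨r x.1 x.2 (n + 1) (by omega), hr1 x.1 x.2 (n + 1) (by omega)⟩) n
  exact ⟨fun n => (t n).1, rfl, fun n => (t n).2, fun n => hr2 (t n).1 (t n).2 (n + 1) (by omega)⟩

theorem hom_of_roots {G : Type u} [Group G] {D : Set G} (hD : ∀ h ∈ D, ∀ m : ℕ, 1 ≤ m → ∃ h' ∈ D, h' ^ m = h)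
    {g : G} (hg : g ∈ D) : ∃ f : Multiplicative ℚ →* G, f (Multiplicative.ofAdd 1) = g ∧
      ((∀ h ∈ D, ¬ IsOfFinOrder h) → Function.Injective f) := by
  obtain ⟨s, hs0, hsD, hs⟩ := exists_seq hD hg
  obtain ⟨f, hf⟩ := exists_hom hs
  refine ⟨f, ?_, fun hinf => ?_⟩
  · have := hf 0 1
    rw [Nat.factorial_zero, Nat.cast_one, Int.cast_one, div_one, zpow_one, hs0] at this
    exact this
  · rw [injective_iff_map_eq_one]
    intro x hx
    obtain ⟨q, hq⟩ : ∃ q : ℚ, x = Multiplicative.ofAdd q := ⟨x.toAdd, rfl⟩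
    rw [hq] at hx ⊢
    have hn0 : (((q.den).factorial : ℕ) : ℚ) ≠ 0 := Nat.cast_ne_zero.2 (Nat.factorial_ne_zero _)
    obtain ⟨c, hc⟩ := Nat.dvd_factorial q.den_pos (le_refl q.den)
    have h1 : q = ((q.num * c : ℤ) : ℚ) / (((q.den).factorial : ℕ) : ℚ) := by
      rw [eq_div_iff hn0, hc]
      push_cast
      rw [← mul_assoc, Rat.mul_den_eq_num]
    have h2 := hf q.den (q.num * c)
    rw [← h1, hx] at h2
    have h3 : q.num * c = 0 := by
      by_contra h4
      exact hinf _ (hsD q.den) (isOfFinOrder_iff_zpow_eq_one.2 ⟨_, h4, h2.symm⟩)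
    rw [h1, h3, Int.cast_zero, zero_div]
    rfl

end Pool.Agent.Q252.DV
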