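import Pool.Agent.Q252.DV.A

/-!
Groups with finitely many conjugacy classes: a power of every element lies on a homomorphic image of the
rational numbers.
-/

set_option autoImplicit false

namespace Pool.Agent.Q252.DV

universe u

/-- the power map on conjugacy classes -/
def pw (G : Type u) [Group G] (m : ℕ) : ConjClasses G → ConjClasses G :=
  Quotient.map (fun g => g ^ m) (fun _ _ h => IsConj.pow m h)

theorem pw_mk {G : Type u} [Group G] (m : ℕ) (g : G) : pw G m (ConjClasses.mk g) = ConjClasses.mk (g ^ m) := rfl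

theorem pw_pw {G : Type u} [Group G] (m n : ℕ) (c : ConjClasses G) : pw G m (pw G n c) = pw G (n * m) c := by
  obtain ⟨g, rfl⟩ := ConjClasses.exists_rep c
  rw [pw_mk, pw_mk, pw_mk, pow_mul]

/-- the classes of the elements of infinite order -/
def infc (G : Type u) [Group G] : Set (ConjClasses G) := {c | ∃ g : G, ¬ IsOfFinOrder g ∧ ConjClasses.mk g = c}

theorem conj_fin {G : Type u} [Group G] {g h : G} (hc : IsConj g h) (hg : IsOfFinOrder g) : IsOfFinOrder h := by
  obtain ⟨n, hn, hn1⟩ := isOfFinOrder_iff_pow_eq_one.1 hg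
  refine isOfFinOrder_iff_pow_eq_one.2 ⟨n, hn, ?_⟩
  have := hc.pow n
  rw [hn1, isConj_one_right] at this
  exact this

theorem mk_mem_infc {G : Type u} [Group G] {g : G} (h : ConjClasses.mk g ∈ infc G) : ¬ IsOfFinOrder g := by
  obtain ⟨k, hk, hkg⟩ := h
  intro hg
  exact hk (conj_fin (ConjClasses.mk_eq_mk_iff_isConj.1 hkg.symm) hg)

theorem pw_infc {G : Type u} [Group G] {m : ℕ} (hm : 1 ≤ m) : pw G m '' infc G ⊆ infc G := by
  rintro _ ⟨_, ⟨g, hg, rfl⟩, rfl⟩
  refine ⟨g ^ m, fun h => hg ?_, rfl⟩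
  exact h.of_pow (by omega)

/-- a set of classes of elements of infinite order on which all power maps are onto -/
theorem exists_stable (G : Type u) [Group G] [Finite (ConjClasses G)] :
    ∃ L : ℕ, 1 ≤ L ∧ ∀ m : ℕ, 1 ≤ m → pw G m '' (pw G L '' infc G) = pw G L '' infc G := by
  classical
  have hex : ∃ k : ℕ, ∃ L : ℕ, 1 ≤ L ∧ (pw G L '' infc G).ncard = k := ⟨_, 1, le_rfl, rfl⟩
  obtain ⟨L, hL, hk⟩ := Nat.find_spec hex
  refine ⟨L, hL, fun m hm => ?_⟩
  have hcomp : ∀ a b : ℕ, pw G a '' (pw G b '' infc G) = pw G (b * a) '' infc G := by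
    intro a b
    rw [Set.image_image]
    exact Set.image_congr fun c _ => pw_pw a b c
  have hsub : pw G m '' (pw G L '' infc G) ⊆ pw G L '' infc G := by
    rw [hcomp, mul_comm, ← hcomp]
    exact Set.image_mono (pw_infc hm)
  refine Set.eq_of_subset_of_ncard_le hsub ?_ (Set.toFinite _)
  rw [hk]
  refine Nat.find_min' hex ⟨L * m, Nat.mul_pos hL hm, ?_⟩
  rw [hcomp]

/-- the elements of finite order have bounded order -/
theorem exists_exponent (G : Type u) [Group G] [Finite (ConjClasses G)] :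
    ∃ e : ℕ, 1 ≤ e ∧ ∀ g : G, IsOfFinOrder g → g ^ e = 1 := by
  classical
  have h1 : ∀ c : ConjClasses G, ∃ n : ℕ, 1 ≤ n ∧ ∀ g : G, ConjClasses.mk g = c → IsOfFinOrder g → g ^ n = 1 := by
    intro c
    obtain ⟨k, rfl⟩ := ConjClasses.exists_rep c
    by_cases hk : IsOfFinOrder k
    · obtain ⟨n, hn, hn1⟩ := isOfFinOrder_iff_pow_eq_one.1 hk
      refine ⟨n, hn, fun g hg _ => ?_⟩
      have := (ConjClasses.mk_eq_mk_iff_isConj.1 hg).pow n
      rw [hn1, isConj_one_left] at this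
      exact this
    · refine ⟨1, le_rfl, fun g hg h => absurd (conj_fin (ConjClasses.mk_eq_mk_iff_isConj.1 hg) h) hk⟩
  choose n hn hn1 using h1
  have := Fintype.ofFinite (ConjClasses G)
  refine ⟨∏ c, n c, Nat.succ_le_of_lt (Finset.prod_pos fun c _ => hn c), fun g hg => ?_⟩
  obtain ⟨k, hk⟩ := Finset.dvd_prod_of_mem n (Finset.mem_univ (ConjClasses.mk g))
  rw [hk, pow_mul, hn1 _ g rfl hg, one_pow]

theorem six_lines (G : Type u) [Group G] [Finite (ConjClasses G)] :
    ∃ L : ℕ, 1 ≤ L ∧ (∀ g : G, IsOfFinOrder g → g ^ L = 1) ∧ ∀ g : G, ¬ IsOfFinOrder g →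
      ∃ f : Multiplicative ℚ →* G, f (Multiplicative.ofAdd 1) = g ^ L ∧ Function.Injective f := by
  obtain ⟨L, hL, hst⟩ := exists_stable G
  obtain ⟨e, he, he1⟩ := exists_exponent G
  refine ⟨L * e, Nat.mul_pos hL he, fun g hg => by rw [mul_comm, pow_mul, he1 g hg, one_pow], fun g hg => ?_⟩
  let D : Set G := {h | ConjClasses.mk h ∈ pw G L '' infc G}
  have hD : ∀ h ∈ D, ∀ m : ℕ, 1 ≤ m → ∃ h' ∈ D, h' ^ m = h := by
    intro h hh m hm
    have h1 : ConjClasses.mk h ∈ pw G m '' (pw G L '' infc G) := by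
      rw [hst m hm]
      exact hh
    obtain ⟨c, hc, hch⟩ := h1
    obtain ⟨k, rfl⟩ := ConjClasses.exists_rep c
    rw [pw_mk, ConjClasses.mk_eq_mk_iff_isConj] at hch
    obtain ⟨t, ht⟩ := isConj_iff.1 hch
    refine ⟨t * k * t⁻¹, ?_, ?_⟩
    · change ConjClasses.mk (t * k * t⁻¹) ∈ pw G L '' infc G
      rwa [ConjClasses.mk_eq_mk_iff_isConj.2 (isConj_iff.2 ⟨t, rfl⟩ : IsConj k (t * k * t⁻¹)).symm.symm] at hc
    · rw [conj_pow]
      exact ht
  have hgD : g ^ (L * e) ∈ D := by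
    change ConjClasses.mk (g ^ (L * e)) ∈ pw G L '' infc G
    rw [← hst e he, pow_mul, ← pw_mk, ← pw_mk]
    exact Set.mem_image_of_mem _ (Set.mem_image_of_mem _ ⟨g, hg, rfl⟩)
  obtain ⟨f, hf1, hf2⟩ := hom_of_roots hD hgD
  refine ⟨f, hf1, hf2 fun h hh => ?_⟩
  exact mk_mem_infc (pw_infc hL hh)

/-- all elements have all roots exactly when they lie on images of the rational numbers -/
theorem five_lines (G : Type u) [Group G] :
    (∀ (g : G) (m : ℕ), 1 ≤ m → ∃ h : G, h ^ m = g) ↔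
      ∀ g : G, ∃ f : Multiplicative ℚ →* G, f (Multiplicative.ofAdd 1) = g := by
  constructor
  · intro h g
    obtain ⟨f, hf, -⟩ := hom_of_roots (D := Set.univ)
      (fun g _ m hm => by
        obtain ⟨k, hk⟩ := h g m hm
        exact ⟨k, Set.mem_univ _, hk⟩) (Set.mem_univ g)
    exact ⟨f, hf⟩
  · intro h g m hm
    obtain ⟨f, hf⟩ := h g
    refine ⟨f (Multiplicative.ofAdd ((1 : ℚ) / m)), ?_⟩
    rw [← map_pow, ← hf, ← ofAdd_nsmul]
    congr 2
    rw [nsmul_eq_mul, mul_one_div, div_self (Nat.cast_ne_zero.2 (by omega))]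

/-- the image of a homomorphism from the rational numbers is finitely generated only if it is trivial -/
theorem line_fg {G : Type u} [Group G] (f : Multiplicative ℚ →* G) (h : f.range.FG) : ∀ x, f x = 1 := by
  classical
  obtain ⟨S, hS⟩ := h
  have h1 : ∀ g ∈ S, ∃ q : ℚ, f (Multiplicative.ofAdd q) = g := by
    intro g hg
    have : g ∈ f.range := by
      rw [← hS]
      exact Subgroup.subset_closure hg
    obtain ⟨x, hx⟩ := this
    exact ⟨x.toAdd, hx⟩
  choose! q hq using h1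
  -- a common denominator
  let N : ℕ := ∏ g ∈ S, (q g).den
  have hN : 0 < N := Finset.prod_pos fun g _ => (q g).den_pos
  have hN0 : (N : ℚ) ≠ 0 := Nat.cast_ne_zero.2 hN.ne'
  have h2 : f.range ≤ Subgroup.zpowers (f (Multiplicative.ofAdd ((1 : ℚ) / N))) := by
    rw [← hS, Subgroup.closure_le]
    intro g hg
    have hg' : g ∈ S := hg
    obtain ⟨c, hc⟩ := Finset.dvd_prod_of_mem (fun g => (q g).den) hg'
    have h3 : q g = (((q g).num * c : ℤ) : ℚ) * (1 / N) := by
      have h4 : (N : ℚ) = (q g).den * c := by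
        change ((∏ g ∈ S, (q g).den : ℕ) : ℚ) = _
        rw [hc]
        push_cast
        ring
      rw [mul_one_div, eq_div_iff hN0, h4]
      push_cast
      rw [← mul_assoc, Rat.mul_den_eq_num]
    refine ⟨(q g).num * c, ?_⟩
    change f (Multiplicative.ofAdd ((1 : ℚ) / N)) ^ ((q g).num * (c : ℤ)) = g
    rw [← map_zpow, ← ofAdd_zsmul, zsmul_eq_mul, ← h3, hq g hg']
  -- the generator is a square of a power of itself, and so on
  have h5 : ∀ m : ℕ, 1 ≤ m → ∃ k : ℤ, f (Multiplicative.ofAdd ((1 : ℚ) / N)) =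
      (f (Multiplicative.ofAdd ((1 : ℚ) / N)) ^ k) ^ m := by
    intro m hm
    obtain ⟨k, hk⟩ := h2 ⟨Multiplicative.ofAdd ((1 : ℚ) / (N * m)), rfl⟩
    refine ⟨k, ?_⟩
    change f (Multiplicative.ofAdd ((1 : ℚ) / N)) ^ k = _ at hk
    rw [hk, ← map_pow, ← ofAdd_nsmul, nsmul_eq_mul]
    congr 2
    have : (m : ℚ) ≠ 0 := Nat.cast_ne_zero.2 (by omega)
    field_simp
  have h6 : f (Multiplicative.ofAdd ((1 : ℚ) / N)) = 1 := by
    obtain ⟨k, hk⟩ := h5 2 (by norm_num)
    -- finite order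
    have h7 : IsOfFinOrder (f (Multiplicative.ofAdd ((1 : ℚ) / N))) := by
      refine isOfFinOrder_iff_zpow_eq_one.2 ⟨k * 2 - 1, by omega, ?_⟩
      rw [zpow_sub, zpow_mul, zpow_one, mul_inv_eq_one]
      have h8 := hk
      rw [← zpow_natCast] at h8
      exact h8.symm
    obtain ⟨n, hn, hn1⟩ := isOfFinOrder_iff_pow_eq_one.1 h7
    obtain ⟨k', hk'⟩ := h5 n hn
    rw [hk', ← zpow_natCast, ← zpow_mul, mul_comm, zpow_mul, zpow_natCast, hn1, one_zpow]
  intro x
  have h9 := h2 ⟨x, rfl⟩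
  rw [h6, Subgroup.zpowers_one_eq_bot, Subgroup.mem_bot] at h9
  exact h9

end Pool.Agent.Q252.DV
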